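import Mathlib
import Pool.Agent.R561.CM.PFinal
import Pool.Agent.R561.CM.Shared

set_option autoImplicit false

/-!
# Commutative languages and bounded languages

`LimAut`, `language`, `size` and `detSize` are those of `Pool/Agent/H630R2/LA/Defs.lean`.  We bound
the cost of determinizing 1-limited automata with a commutative language, and of determinizing them
on the words that are products of at most `k` words with periods at most `ℓ`, such as the words of
`w₁* ⋯ wₖ*` for words `wᵢ` of length at most `ℓ`.  The deterministic machines never rewrite, so they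
are two-way deterministic finite automata.
-/

namespace Pool.Agent.Results.MP_0036f5_lc.CommutativeAndBounded

open Pool.Agent.H630R2.LA
open Pool.Agent.R561.CM (NeverRewrites arranged few_periods finite_alphabet arr arr_perm HasPer
  size_ge trivialM size_trivialM unit_eq lower_of)
open Pool.Agent.H542.UN (witU size_witU)

/-- The language contains all rearrangements of its words. -/
def Commutative {A : Type} (L : Set (List A)) : Prop :=
  ∀ u v : List A, u.Perm v → u ∈ L → v ∈ L

/-- The word `v` has a period `p` with `1 ≤ p ≤ ℓ`: letters at distance `p` are equal. -/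
def SmallPeriod {A : Type} (ℓ : ℕ) (v : List A) : Prop :=
  ∃ p, 1 ≤ p ∧ p ≤ ℓ ∧ ∀ i, i + p < v.length → v[i]? = v[i + p]?

/-- The word is a product of at most `k` words that have periods at most `ℓ`. -/
def FewFactors {A : Type} (k ℓ : ℕ) (w : List A) : Prop :=
  ∃ u : List (List A), u.length ≤ k ∧ (∀ v ∈ u, SmallPeriod ℓ v) ∧ w = u.flatten

/-- The values `detSize L(M)` for the 1-limited automata `M` of size at most `n` with a commutative
language. -/
def costsC (strict : Prop) (n : ℕ) : Set ℕ :=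
  {s | ∃ (A : Type) (_ : Finite A) (M : LimAut A), M.size ≤ n ∧
    Commutative (M.language strict) ∧ s = detSize strict (M.language strict)}

/-- The cost function for the 1-limited automata with a commutative language. -/
noncomputable def DC (strict : Prop) (n : ℕ) : ℕ := sSup (costsC strict n)

/-- The values `detSize L(M)` for the 1-limited automata `M` of size at most `n` all of whose
words are products of at most `k` words with periods at most `ℓ`. -/
def costsB (strict : Prop) (k ℓ n : ℕ) : Set ℕ :=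
  {s | ∃ (A : Type) (_ : Finite A) (M : LimAut A), M.size ≤ n ∧
    (∀ w ∈ M.language strict, FewFactors k ℓ w) ∧ s = detSize strict (M.language strict)}

/-- The cost function for the 1-limited automata all of whose words are products of at most `k`
words with periods at most `ℓ`. -/
noncomputable def DB (strict : Prop) (k ℓ n : ℕ) : ℕ := sSup (costsB strict k ℓ n)

/-- Part (1). -/
theorem commutative_machine (strict : Prop) {A : Type} (M : LimAut A)
    (hM : Commutative (M.language strict)) :
    ∃ M' : LimAut A, M'.Deterministic ∧ NeverRewrites M' ∧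
      (∀ strict' : Prop, M'.language strict' = M.language strict) ∧
      M'.size ≤ 2 ^ ((Nat.clog 2 (Nat.card A) + 5) * (Nat.card M.Q ^ 2 + Nat.card M.Q) +
        2 * Nat.clog 2 (Nat.card A) + 8) := by
  classical
  have hA := finite_alphabet M
  have hfA := Fintype.ofFinite A
  have hn : (Finset.univ : Finset A).toList.Nodup := Finset.nodup_toList _
  have hl : ∀ a : A, a ∈ (Finset.univ : Finset A).toList :=
    fun a => Finset.mem_toList.2 (Finset.mem_univ a)
  obtain ⟨M', h1, h2, h3, h4⟩ := arranged strict M _ hn hl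
  refine ⟨M', h1, h2, fun strict' => ?_, h4⟩
  ext w
  rw [h3]
  have h5 := arr_perm w _ hn hl
  exact ⟨fun h => hM _ _ h5 h, fun h => hM _ _ h5.symm h⟩

/-- Part (2). -/
theorem bounded_machine (strict : Prop) {A : Type} (M : LimAut A) (k ℓ : ℕ) (hℓ : 1 ≤ ℓ) :
    ∃ M' : LimAut A, M'.Deterministic ∧ NeverRewrites M' ∧
      (∀ strict' : Prop, M'.language strict' = {w ∈ M.language strict | FewFactors k ℓ w}) ∧
      M'.size ≤ (64 * (Nat.card A + 1)) ^ ℓ *
        2 ^ ((Nat.clog 2 k + 5) * (Nat.card M.Q ^ 2 + Nat.card M.Q) +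
          2 * Nat.clog 2 k + Nat.card A + 9) := by
  obtain ⟨M', h1, h2, h3, h4⟩ := few_periods strict M k ℓ hℓ
  refine ⟨M', h1, h2, fun strict' => ?_, h4⟩
  ext w
  exact h3 strict' w

theorem detSize_C (strict : Prop) {A : Type} (M : LimAut A)
    (hM : Commutative (M.language strict)) (n : ℕ) (hn : M.size ≤ n) :
    detSize strict (M.language strict) ≤ 2 ^ ((Nat.clog 2 n + 5) * n ^ 2) := by
  obtain ⟨M', h1, _, h2, h3⟩ := commutative_machine strict M hM
  have h4 : detSize strict (M.language strict) ≤ M'.size := Nat.sInf_le ⟨M', h1, h2 strict, rfl⟩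
  refine h4.trans (h3.trans (Nat.pow_le_pow_right (by norm_num) ?_))
  have h5 := size_ge M
  have h6 : Nat.clog 2 (Nat.card A) ≤ Nat.clog 2 n := Nat.clog_mono_right 2 (by omega)
  generalize Nat.clog 2 (Nat.card A) = κ at *
  have h7 : Nat.card M.Q ^ 2 + Nat.card M.Q + 2 ≤ n ^ 2 := by
    have : (Nat.card M.Q + 3) ^ 2 ≤ n ^ 2 := Nat.pow_le_pow_left (by omega) 2
    nlinarith
  calc (κ + 5) * (Nat.card M.Q ^ 2 + Nat.card M.Q) + 2 * κ + 8
      ≤ (κ + 5) * (Nat.card M.Q ^ 2 + Nat.card M.Q + 2) := by nlinarith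
    _ ≤ (Nat.clog 2 n + 5) * n ^ 2 := Nat.mul_le_mul (by omega) h7

theorem detSize_B (strict : Prop) {A : Type} (M : LimAut A) (k ℓ : ℕ) (hℓ : 1 ≤ ℓ)
    (hM : ∀ w ∈ M.language strict, FewFactors k ℓ w) (n : ℕ) (hn : M.size ≤ n) :
    detSize strict (M.language strict) ≤ (64 * n) ^ ℓ * 2 ^ ((Nat.clog 2 k + 5) * n ^ 2) := by
  obtain ⟨M', h1, _, h2, h3⟩ := bounded_machine strict M k ℓ hℓ
  have h2' : M'.language strict = M.language strict := by
    rw [h2]
    ext w
    exact ⟨fun h => h.1, fun h => ⟨h, hM w h⟩⟩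
  have h4 : detSize strict (M.language strict) ≤ M'.size := Nat.sInf_le ⟨M', h1, h2', rfl⟩
  have h5 := size_ge M
  refine h4.trans (h3.trans (Nat.mul_le_mul (Nat.pow_le_pow_left ?_ ℓ)
    (Nat.pow_le_pow_right (by norm_num) ?_)))
  · omega
  generalize Nat.clog 2 k = κ at *
  have h7 : Nat.card M.Q ^ 2 + Nat.card M.Q + 2 + Nat.card A ≤ n ^ 2 := by
    have : (Nat.card M.Q + 2 * Nat.card A + 3) ^ 2 ≤ n ^ 2 := Nat.pow_le_pow_left (by omega) 2
    nlinarith [Nat.zero_le (Nat.card M.Q * Nat.card A), Nat.zero_le (Nat.card A ^ 2)]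
  calc (κ + 5) * (Nat.card M.Q ^ 2 + Nat.card M.Q) + 2 * κ + Nat.card A + 9
      ≤ (κ + 5) * (Nat.card M.Q ^ 2 + Nat.card M.Q + 2 + Nat.card A) := by
        nlinarith [Nat.zero_le (κ * Nat.card A)]
    _ ≤ (κ + 5) * n ^ 2 := Nat.mul_le_mul_left _ h7

theorem bddC (strict : Prop) (n : ℕ) : BddAbove (costsC strict n) := by
  refine ⟨2 ^ ((Nat.clog 2 n + 5) * n ^ 2), ?_⟩
  rintro s ⟨A, _, M, h1, h2, rfl⟩
  exact detSize_C strict M h2 n h1

theorem bddB (strict : Prop) (k ℓ n : ℕ) (hℓ : 1 ≤ ℓ) : BddAbove (costsB strict k ℓ n) := by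
  refine ⟨(64 * n) ^ ℓ * 2 ^ ((Nat.clog 2 k + 5) * n ^ 2), ?_⟩
  rintro s ⟨A, _, M, h1, h2, rfl⟩
  exact detSize_B strict M k ℓ hℓ h2 n h1

theorem nonemptyC (strict : Prop) (n : ℕ) (hn : 4 ≤ n) : (costsC strict n).Nonempty := by
  refine ⟨_, Empty, inferInstance, trivialM, by rw [size_trivialM]; exact hn, ?_, rfl⟩
  intro u v h hu
  rcases u with _ | ⟨a, u⟩
  · rw [List.nil_perm.1 h]
    exact hu
  · exact a.elim

theorem nonemptyB (strict : Prop) (k ℓ n : ℕ) (hn : 4 ≤ n) : (costsB strict k ℓ n).Nonempty := by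
  refine ⟨_, Empty, inferInstance, trivialM, by rw [size_trivialM]; exact hn, ?_, rfl⟩
  intro w _
  rcases w with _ | ⟨a, w⟩
  · exact ⟨[], Nat.zero_le _, fun v hv => absurd hv (by simp), rfl⟩
  · exact a.elim

theorem DC_le (strict : Prop) (n : ℕ) : DC strict n ≤ 2 ^ ((Nat.clog 2 n + 5) * n ^ 2) := by
  rcases Set.eq_empty_or_nonempty (costsC strict n) with h | h
  · unfold DC
    rw [h]
    simp
  · refine csSup_le h ?_
    rintro s ⟨A, _, M, h1, h2, rfl⟩
    exact detSize_C strict M h2 n h1

theorem DB_le (strict : Prop) (k ℓ n : ℕ) (hℓ : 1 ≤ ℓ) :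
    DB strict k ℓ n ≤ (64 * n) ^ ℓ * 2 ^ ((Nat.clog 2 k + 5) * n ^ 2) := by
  rcases Set.eq_empty_or_nonempty (costsB strict k ℓ n) with h | h
  · unfold DB
    rw [h]
    simp
  · refine csSup_le h ?_
    rintro s ⟨A, _, M, h1, h2, rfl⟩
    exact detSize_B strict M k ℓ hℓ h2 n h1

theorem unit_commutative (L : Set (List Unit)) : Commutative L := by
  intro u v h hu
  have h1 : u = v := by
    rw [unit_eq u, unit_eq v, h.length_eq]
  rwa [← h1]

theorem unit_few (k ℓ : ℕ) (hk : 1 ≤ k) (hℓ : 1 ≤ ℓ) (w : List Unit) : FewFactors k ℓ w := by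
  refine ⟨[w], by simpa using hk, ?_, by simp⟩
  intro v hv
  rw [List.mem_singleton] at hv
  subst hv
  refine ⟨1, le_rfl, hℓ, fun i hi => ?_⟩
  rw [List.getElem?_eq_getElem (by omega), List.getElem?_eq_getElem hi]

theorem DC_lower (strict : Prop) (n : ℕ) (hn : 12000000 ≤ n) :
    2 ^ (n ^ 2) ≤ DC strict n ^ (2 * 10 ^ 14) :=
  lower_of strict n hn _ fun m hm => le_csSup (bddC strict n)
    ⟨Unit, inferInstance, witU m, (size_witU m).trans hm, unit_commutative _, rfl⟩

theorem DB_lower (strict : Prop) (k ℓ n : ℕ) (hk : 1 ≤ k) (hℓ : 1 ≤ ℓ) (hn : 12000000 ≤ n) :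
    2 ^ (n ^ 2) ≤ DB strict k ℓ n ^ (2 * 10 ^ 14) :=
  lower_of strict n hn _ fun m hm => le_csSup (bddB strict k ℓ n hℓ)
    ⟨Unit, inferInstance, witU m, (size_witU m).trans hm, fun w _ => unit_few k ℓ hk hℓ w, rfl⟩

/-- Powers of words of length at most `ℓ` have periods at most `ℓ`. -/
theorem smallPeriod_power {A : Type} (ℓ : ℕ) (hℓ : 1 ≤ ℓ) (u : List A) (hu : u.length ≤ ℓ)
    (m : ℕ) : SmallPeriod ℓ (List.replicate m u).flatten := by
  rcases Nat.eq_zero_or_pos u.length with h0 | h0
  · have h1 : u = [] := List.length_eq_zero_iff.1 h0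
    subst h1
    refine ⟨1, le_rfl, hℓ, fun i hi => ?_⟩
    simp at hi
  · refine ⟨u.length, h0, hu, ?_⟩
    induction m with
    | zero => intro i hi; simp at hi
    | succ m ih =>
      intro i hi
      rw [List.replicate_succ, List.flatten_cons] at hi ⊢
      rw [List.length_append] at hi
      rw [List.getElem?_append_right (by omega : u.length ≤ i + u.length)]
      have e : i + u.length - u.length = i := by omega
      rw [e]
      rcases Nat.lt_or_ge i u.length with h2 | h2
      · rw [List.getElem?_append_left h2]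
        rcases m with _ | m
        · simp at hi
        · rw [List.replicate_succ, List.flatten_cons, List.getElem?_append_left h2]
      · rw [List.getElem?_append_right h2]
        have h3 := ih (i - u.length) (by omega)
        have e2 : i - u.length + u.length = i := by omega
        rw [e2] at h3
        exact h3

/-- The words of `w₁* ⋯ wₖ*`. -/
theorem few_of_bounded {A : Type} (ℓ : ℕ) (hℓ : 1 ≤ ℓ) (W : List (List A))
    (hW : ∀ u ∈ W, u.length ≤ ℓ) (e : List ℕ) :
    FewFactors W.length ℓ
      (List.zipWith (fun u m => (List.replicate m u).flatten) W e).flatten := by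
  refine ⟨_, ?_, ?_, rfl⟩
  · rw [List.length_zipWith]
    exact min_le_left _ _
  · intro v hv
    rw [List.mem_iff_getElem?] at hv
    obtain ⟨i, hi⟩ := hv
    rw [List.getElem?_zipWith] at hi
    rcases h1 : W[i]? with _ | u
    · rw [h1] at hi
      simp at hi
    · rcases h2 : e[i]? with _ | m
      · rw [h1, h2] at hi
        simp at hi
      · rw [h1, h2] at hi
        simp only [Option.some.injEq] at hi
        rw [← hi]
        exact smallPeriod_power ℓ hℓ u (hW u (List.mem_of_getElem? h1)) m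

/-- Short words. -/
theorem few_of_short {A : Type} (ℓ : ℕ) (hℓ : 1 ≤ ℓ) (k : ℕ) (w : List A)
    (hw : w.length ≤ k * ℓ) : FewFactors k ℓ w := by
  induction k generalizing w with
  | zero =>
    have h1 : w = [] := List.length_eq_zero_iff.1 (by omega)
    exact ⟨[], le_rfl, fun v hv => absurd hv (by simp), by simp [h1]⟩
  | succ k ih =>
    obtain ⟨u, h1, h2, h3⟩ := ih (w.drop ℓ) (by
      rw [List.length_drop]
      rw [Nat.add_mul] at hw
      omega)
    refine ⟨w.take ℓ :: u, by simpa using h1, ?_, ?_⟩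
    · intro v hv
      rcases List.mem_cons.1 hv with hv | hv
      · subst hv
        refine ⟨ℓ, hℓ, le_rfl, fun i hi => ?_⟩
        rw [List.length_take] at hi
        omega
      · exact h2 v hv
    · rw [List.flatten_cons, ← h3, List.take_append_drop]

/-- **Determinizing 1-limited automata with a commutative or a bounded language.**

Let `M` be a 1-limited automaton with `q` states over an alphabet with `α` letters.

(1) If the language of `M` is commutative then it has an equivalent deterministic 1-limited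
automaton which never rewrites (a two-way deterministic finite automaton), of size at most
`2 ^ ((κ + 5) (q ^ 2 + q) + 2 κ + 8)`, where `κ = ⌈log₂ α⌉`.  More generally, for every `M` and every
list `l` of the letters there is such a machine of this size for the set of the words whose
rearrangement in the order of `l` is accepted by `M`.

(2) For every `M` and all `k` and `ℓ ≥ 1` there is a deterministic 1-limited automaton which never
rewrites and accepts exactly the words of `L(M)` that are products of at most `k` words with periods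
at most `ℓ`, of size at most `(64 (α + 1)) ^ ℓ * 2 ^ ((κ + 5) (q ^ 2 + q) + 2 κ + α + 9)`, where
`κ = ⌈log₂ k⌉`.  All words of `w₁* ⋯ wₖ*` with words `wᵢ` of length at most `ℓ` are of this form, and
so are all words of length at most `k ℓ`.

(3) So the cost function `DC` for the automata with a commutative language and the cost function
`DB k ℓ` for the automata all of whose words are products of at most `k` words with periods at most
`ℓ` satisfy `DC n ≤ 2 ^ ((⌈log₂ n⌉ + 5) n ^ 2)` and
`DB k ℓ n ≤ (64 n) ^ ℓ * 2 ^ ((⌈log₂ k⌉ + 5) n ^ 2)`, while both are at least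
`2 ^ (n ^ 2 / (2 * 10 ^ 14))` for `n ≥ 12000000` and `k, ℓ ≥ 1`.  They are attained maxima for
`n ≥ 4`.

All this holds for both readings `strict` of the rule that visited cells are frozen. -/
theorem result (strict : Prop) :
    -- (1) commutative languages
    ((∀ (A : Type) (M : LimAut A), Commutative (M.language strict) →
      ∃ M' : LimAut A, M'.Deterministic ∧ NeverRewrites M' ∧
        (∀ strict' : Prop, M'.language strict' = M.language strict) ∧
        M'.size ≤ 2 ^ ((Nat.clog 2 (Nat.card A) + 5) * (Nat.card M.Q ^ 2 + Nat.card M.Q) +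
          2 * Nat.clog 2 (Nat.card A) + 8)) ∧
    (∀ (A : Type) [DecidableEq A] (M : LimAut A) (l : List A), l.Nodup → (∀ a, a ∈ l) →
      ∃ M' : LimAut A, M'.Deterministic ∧ NeverRewrites M' ∧
        (∀ strict' : Prop, M'.language strict' =
          {w | l.flatMap (fun a => List.replicate (w.count a) a) ∈ M.language strict}) ∧
        M'.size ≤ 2 ^ ((Nat.clog 2 (Nat.card A) + 5) * (Nat.card M.Q ^ 2 + Nat.card M.Q) +
          2 * Nat.clog 2 (Nat.card A) + 8))) ∧
    -- (2) products of few words with small periods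
    ((∀ (A : Type) (M : LimAut A) (k ℓ : ℕ), 1 ≤ ℓ →
      ∃ M' : LimAut A, M'.Deterministic ∧ NeverRewrites M' ∧
        (∀ strict' : Prop, M'.language strict' = {w ∈ M.language strict | FewFactors k ℓ w}) ∧
        M'.size ≤ (64 * (Nat.card A + 1)) ^ ℓ *
          2 ^ ((Nat.clog 2 k + 5) * (Nat.card M.Q ^ 2 + Nat.card M.Q) +
            2 * Nat.clog 2 k + Nat.card A + 9)) ∧
    (∀ (A : Type) (ℓ : ℕ), 1 ≤ ℓ → ∀ W : List (List A), (∀ u ∈ W, u.length ≤ ℓ) → ∀ e : List ℕ,
      FewFactors W.length ℓ
        (List.zipWith (fun u m => (List.replicate m u).flatten) W e).flatten) ∧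
    (∀ (A : Type) (k ℓ : ℕ) (w : List A), 1 ≤ ℓ → w.length ≤ k * ℓ → FewFactors k ℓ w)) ∧
    -- (3) the cost functions
    (∀ n : ℕ, DC strict n ≤ 2 ^ ((Nat.clog 2 n + 5) * n ^ 2)) ∧
    (∀ n : ℕ, 12000000 ≤ n → 2 ^ (n ^ 2) ≤ DC strict n ^ (2 * 10 ^ 14)) ∧
    (∀ k ℓ n : ℕ, 1 ≤ ℓ →
      DB strict k ℓ n ≤ (64 * n) ^ ℓ * 2 ^ ((Nat.clog 2 k + 5) * n ^ 2)) ∧
    (∀ k ℓ n : ℕ, 1 ≤ k → 1 ≤ ℓ → 12000000 ≤ n →
      2 ^ (n ^ 2) ≤ DB strict k ℓ n ^ (2 * 10 ^ 14)) ∧
    (∀ n : ℕ, 4 ≤ n → IsGreatest (costsC strict n) (DC strict n)) ∧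
    (∀ k ℓ n : ℕ, 1 ≤ ℓ → 4 ≤ n → IsGreatest (costsB strict k ℓ n) (DB strict k ℓ n)) := by
  refine ⟨⟨fun A M => commutative_machine strict M, ?_⟩,
    ⟨fun A M k ℓ hℓ => bounded_machine strict M k ℓ hℓ,
      fun A ℓ hℓ W hW e => few_of_bounded ℓ hℓ W hW e,
      fun A k ℓ w hℓ hw => few_of_short ℓ hℓ k w hw⟩,
    DC_le strict, DC_lower strict, fun k ℓ n hℓ => DB_le strict k ℓ n hℓ,
    fun k ℓ n hk hℓ hn => DB_lower strict k ℓ n hk hℓ hn, ?_, ?_⟩
  · intro A _ M l hn hl
    obtain ⟨M', h1, h2, h3, h4⟩ := arranged strict M l hn hl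
    refine ⟨M', h1, h2, fun strict' => ?_, h4⟩
    ext w
    exact h3 strict' w
  · intro n hn
    exact ⟨Nat.sSup_mem (nonemptyC strict n hn) (bddC strict n),
      fun s hs => le_csSup (bddC strict n) hs⟩
  · intro k ℓ n hℓ hn
    exact ⟨Nat.sSup_mem (nonemptyB strict k ℓ n hn) (bddB strict k ℓ n hℓ),
      fun s hs => le_csSup (bddB strict k ℓ n hℓ) hs⟩

end Pool.Agent.Results.MP_0036f5_lc.CommutativeAndBounded
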