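import Mathlib
import Pool.Agent.R50.LX.Expr
import Pool.Agent.Results.MP_0036f5_lc.QuadraticExponent

/-!
# Determinizing expressions over 1-limited automata

`D(n)` is the worst-case cost of the conversion of a 1-limited automaton (LA) of size `n` into a
deterministic one (DLA). Here the LA is replaced by an arbitrary expression in which LAs (and
one-way nondeterministic automata) are combined by union, intersection, concatenation, Kleene star,
reversal, shuffle and preimages under transductions, arbitrarily nested. The size of an expression
is the sum of the sizes of the automata and transducers plus the number of operations. The known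
upper bound `2 ^ ((n + 2) ^ 4)` for `D(n)` still holds for the cost `DE(n)` of the conversion of
expressions of size `n` into DLAs, so `2 ^ (c n ^ 2) ≤ D(n) ≤ DE(n) ≤ 2 ^ ((n + 2) ^ 4)`, and also
every Boolean combination of expressions has a DLA of such a size, which works in linear time. So
no combination of these operations, which by themselves (intersection and shuffle) make
nondeterministic automata exponentially larger, leads from LAs to a double exponential cost.

For expressions without LAs, in particular for regular expressions with intersection and shuffle,
the exponent is quadratic: DLAs of size `2 ^ ((n + 6) ^ 2)` suffice.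

Proof. An expression has a weight, the sum of `q ^ 2 + q` for the LAs with `q` states, of
`⌈log₂ s⌉ + 1` for the one-way automata with `s` states, of `⌈log₂ t⌉` for the transducers with `t`
states and of `1` for the stars; there is a one-way nondeterministic automaton with `2 ^ weight`
states for its language, because the operations are simulated by sums and products of automata. The
simulation of one-way nondeterministic automata by DLAs is that of the starting files
`Pool/Agent/H630R2/LA/`, `Pool/Agent/Y527/LA/` (in the form `Pool/Agent/R620/KV/Comb.lean`).
-/

set_option autoImplicit false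

namespace Pool.Agent.Results.MP_0036f5_lc.ExpressionsOverAutomata

open Pool.Agent.H630R2.LA
open Pool.Agent.Y527.LA (Steps)
open Pool.Agent.R50.LX (Expr costsE DE)

/-- The Boolean combination `F` of the languages of the expressions `e i`. -/
def combine (strict : Prop) {A : Type} {k : ℕ} (e : Fin k → Expr A)
    (F : (Fin k → Prop) → Prop) : Set (List A) :=
  {w | F (fun i => w ∈ (e i).lang strict)}

/-- No computation of `M` on an input `w` has more than `s (|w| + 1)` moves, where `s` is the number
of states, for both readings of the rule that visited cells are frozen. -/
def LinearTime {A : Type} (M : LimAut A) : Prop :=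
  ∀ (strict : Prop) (w : List A) (t : ℕ) (c : Cfg M),
    Steps (Step strict w.length) t (init M w) c → t ≤ Nat.card M.Q * (w.length + 1)

theorem result (strict : Prop) :
    -- (1) Boolean combinations of expressions, in terms of the weights
    (∀ (A : Type) [Finite A] (k : ℕ) (e : Fin k → Expr A) (F : (Fin k → Prop) → Prop),
      ∃ M' : LimAut A, M'.Deterministic ∧ LinearTime M' ∧
        (∀ strict' : Prop, M'.language strict' = combine strict e F) ∧
        Nat.card M'.Q ≤ 2 ^ ((∑ i, (e i).weight + 5) ^ 2) ∧
        Nat.card M'.W = 3 * Nat.card A + 1 ∧
        M'.size ≤ 2 ^ ((∑ i, (e i).weight + 5) ^ 2) * (Nat.card A + 1)) ∧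
    -- (2) weight and size, expressions without 1-limited automata
    (∀ (A : Type) (e : Expr A), e.weight ≤ e.size ^ 2 ∧ (e.Plain → e.weight ≤ e.size)) ∧
    (∀ (A : Type) [Finite A] (e : Expr A), e.Plain →
      detSize strict (e.lang strict) ≤ 2 ^ ((e.size + 6) ^ 2)) ∧
    -- (3) the cost function
    (∀ n : ℕ, 1 ≤ n → IsGreatest (costsE strict n) (DE strict n)) ∧
    (∀ n : ℕ, D strict n ≤ DE strict n ∧ DE strict n ≤ 2 ^ ((n + 2) ^ 4)) ∧
    (∀ n : ℕ, 66500 ≤ n → 2 ^ (n ^ 2) ≤ DE strict n ^ 4000000) := by
  refine ⟨fun A _ k e F => ?_, fun A e => ⟨e.weight_le.1, e.plain_weight⟩,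
    fun A _ e h => R50.LX.detSize_plain strict e h, R50.LX.DE_greatest strict,
    fun n => ⟨R50.LX.D_le_DE strict n, R50.LX.DE_le strict n⟩, fun n hn => ?_⟩
  · obtain ⟨M', h1, h2, h3, h4, h5, h6⟩ := R50.LX.det_acc (fun i => (e i).lang strict)
      (fun i => (e i).weight) (fun i => (e i).weight_pos) (fun i => (e i).acc strict) F
    exact ⟨M', h1, h6, fun strict' => Set.ext (h2 strict'), h3, h4, h5⟩
  · exact ((QuadraticExponent.result strict).2.1 n hn).trans
      (Nat.pow_le_pow_left (R50.LX.D_le_DE strict n) _)

end Pool.Agent.Results.MP_0036f5_lc.ExpressionsOverAutomata
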