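import Mathlib
import Pool.Agent.R620.KV.Final
import Pool.Agent.R620.KV.Rev

/-!
# 1-limited automata with few trips: visits, reversals and the cost of determinization

A *trip* of a computation of a 1-limited automaton (LA) across the boundary between the cells `i`
and `i + 1` is a pair `(p, q)` of states: at some time the head moves from the cell `i + 1` to the
cell `i`, entering the state `p`, and when it returns to the cell `i + 1` for the first time, the
state is `q`. An LA has at most `k` trips if every word of its language has an accepting
computation with at most `k` different trips across each boundary. This holds if each cell is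
visited at most `k` times, or if the head changes at most `k - 1` times from a move to the right to
a move to the left; and every LA with `s` states has at most `s ^ 2` trips.

For a fixed `k` the LAs with at most `k` trips are equivalent to one-way nondeterministic automata
of polynomial size, and the cost of their determinization (also of all Boolean combinations of
their languages, by deterministic LAs which work in linear time) is quasi-polynomial. If `D k n`
denotes the cost for `k` trips, then `log (D k n)` lies between `c * k` and `(C * k * log n) ^ 2`,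
for all `k ≥ k₀` and `n ≥ sqrt k`; for arbitrary LAs (`k = n ^ 2`) the known bounds are
`2 ^ (c * n ^ 2)` and `2 ^ ((n + 2) ^ 4)`.

So trips are expensive to avoid: for every `m` there is an LA of size `1330 * (m + 1)` such that
every equivalent LA with `s` states and at most `k` trips satisfies
`m ≤ 2 * ((2 * k + 1) * (log₂ s + 1) + 3)`. So there is an exponential trade-off: an equivalent LA
that visits every cell at most `k` times has at least `2 ^ ((m - 6) / (4 * k + 2) - 1)` states, and
with `m ^ O(1)` states some cell must be visited about `m / log m` times.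

Proof. A nondeterministic one-way automaton guesses, for each boundary, a set of at most `k` pairs
which contains the trips that are going to be made across this boundary, and it verifies the
guesses from each boundary to the next one. For the deterministic simulation of nondeterministic
one-way automata the starting files `Pool/Agent/H630R2/LA/` and `Pool/Agent/Y527/LA/` are used, and
for the lower bounds the language of `Pool/Agent/TH705/LB/`.
-/

set_option autoImplicit false

namespace Pool.Agent.Results.MP_0036f5_lc.FewTrips

open Pool.Agent.H630R2.LA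
open Pool.Agent.Y527.LA (Steps)
open Pool.Agent.TH705.LB (Ltr)
open Pool.Agent.R620.KV (FewTrips FewVisits FewReversals costsT DT)

/-- The Boolean combination `F` of the languages of the automata `M i`. -/
def combine (strict : Prop) {A : Type} {n : ℕ} (M : Fin n → LimAut A)
    (F : (Fin n → Prop) → Prop) : Set (List A) :=
  {w | F (fun i => w ∈ (M i).language strict)}

/-- No computation of `M` on an input `w` has more than `s (|w| + 1)` moves, where `s` is the number
of states, for both readings of the rule that visited cells are frozen. -/
def LinearTime {A : Type} (M : LimAut A) : Prop :=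
  ∀ (strict : Prop) (w : List A) (t : ℕ) (c : Cfg M),
    Steps (Step strict w.length) t (init M w) c → t ≤ Nat.card M.Q * (w.length + 1)

theorem result (strict : Prop) :
    -- (1) few visits, few reversals and few states imply few trips
    (∀ (A : Type) (M : LimAut A) (k : ℕ),
      (FewVisits strict k M → FewTrips strict k M) ∧
      (FewReversals strict k M → FewTrips strict (k + 1) M) ∧
      (Nat.card M.Q ^ 2 ≤ k → FewTrips strict k M)) ∧
    -- (2) one-way nondeterministic automata
    (∀ (A : Type) (M : LimAut A) (k : ℕ), FewTrips strict k M →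
      ∃ (S : Type) (_ : Finite S) (N : NFA A S),
        Nat.card S ≤ (Nat.card M.Q * Nat.card M.Q + 1) ^ k * Nat.card M.Q + 1 ∧
        ∀ w, w ∈ N.accepts ↔ w ∈ M.language strict) ∧
    -- (3) determinization, and all Boolean combinations
    (∀ (A : Type) [Finite A] (M : LimAut A) (k L : ℕ), FewTrips strict k M →
      Nat.card M.Q + 1 ≤ 2 ^ L → ∃ M' : LimAut A, M'.Deterministic ∧ LinearTime M' ∧
        (∀ strict' : Prop, M'.language strict' = M.language strict) ∧
        Nat.card M'.Q ≤ 2 ^ (((2 * k + 1) * L + 3) ^ 2) ∧
        M'.size ≤ 2 ^ (((2 * k + 1) * L + 3) ^ 2 + 5) * (Nat.card A + 1)) ∧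
    (∀ (A : Type) [Finite A] (n : ℕ) (M : Fin n → LimAut A) (k : Fin n → ℕ)
      (F : (Fin n → Prop) → Prop) (h : ℕ), (∀ i, FewTrips strict (k i) (M i)) → 1 ≤ h →
      ∑ i, (Nat.card (M i).Q * Nat.card (M i).Q + 1) ^ (k i) * Nat.card (M i).Q + 1 ≤ 2 ^ h →
      ∃ M' : LimAut A, M'.Deterministic ∧ LinearTime M' ∧
        (∀ strict' : Prop, M'.language strict' = combine strict M F) ∧
        Nat.card M'.Q ≤ 2 ^ (h ^ 2 + 6 * h + 8 + n) ∧ Nat.card M'.W = 3 * Nat.card A + 1 ∧
        M'.size ≤ 2 ^ (h ^ 2 + 6 * h + 13 + n) * (Nat.card A + 1)) ∧
    -- (4) the cost function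
    (∀ k n : ℕ, 4 ≤ n → IsGreatest (costsT strict k n) (DT strict k n) ∧
      DT strict k n ≤ 2 ^ (((2 * k + 1) * (Nat.log 2 n + 1) + 4) ^ 2)) ∧
    (∀ k n : ℕ, 28302400 ≤ k → k ≤ n ^ 2 → 2 ^ k ≤ DT strict k n ^ 15000000) ∧
    -- (5) the trade-off between trips and states
    (∀ m : ℕ, ∃ M : LimAut Ltr, M.size ≤ 1330 * (m + 1) ∧
      ∀ (k : ℕ) (M' : LimAut Ltr), FewTrips strict k M' →
        M'.language strict = M.language strict →
        m ≤ 2 * ((2 * k + 1) * (Nat.log 2 (Nat.card M'.Q) + 1) + 3)) := by
  refine ⟨?_, ?_, ?_, ?_, ?_, ?_, ?_⟩
  · intro A M k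
    exact ⟨fun h => h.fewTrips, fun h => h.fewTrips, Pool.Agent.R620.KV.fewTrips_all strict M k⟩
  · intro A M k hM
    have := Pool.Agent.R620.KV.finite_XS M k
    exact ⟨_, inferInstance, Pool.Agent.R620.KV.nfaX strict M k,
      Pool.Agent.R620.KV.card_nfaX M k, Pool.Agent.R620.KV.nfaX_accepts hM⟩
  · intro A _ M k L hM hL
    obtain ⟨M', h1, h2, h3, h4, h5⟩ := Pool.Agent.R620.KV.single strict M k L hM hL
    exact ⟨M', h1, h5, h2, h3, h4⟩
  · intro A _ n M k F h hM hh hr
    obtain ⟨M', h1, h2, h3, h4, h5, h6⟩ :=
      Pool.Agent.R620.KV.trips_main strict M k hM F h hh hr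
    exact ⟨M', h1, h6, fun strict' => Set.ext (h2 strict'), h3, h4, h5⟩
  · intro k n hn
    have hne := Pool.Agent.R620.KV.nonempty_costsT strict k n hn
    have hb := Pool.Agent.R620.KV.bdd strict k n
    have hg : IsGreatest (costsT strict k n) (DT strict k n) :=
      ⟨Nat.sSup_mem hne hb, fun s hs => le_csSup hb hs⟩
    refine ⟨hg, ?_⟩
    obtain ⟨A, hA, M, hM, hs, he⟩ := hg.1
    rw [he]
    exact Pool.Agent.R620.KV.detSize_le strict M k n hM hs
  · exact fun k n h0 hk => Pool.Agent.R620.KV.lower_k strict k n h0 hk
  · intro m
    exact ⟨Pool.Agent.TH705.LB.witM m, Pool.Agent.TH705.LB.size_witM m,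
      fun k M' hM hL => Pool.Agent.R620.KV.trade_off strict m k M' hM hL⟩

end Pool.Agent.Results.MP_0036f5_lc.FewTrips
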