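import Mathlib
import Pool.Agent.H542.UN.Up

set_option autoImplicit false

/-!
# Unary 1-limited automata

`LimAut Unit` are the 1-limited automata over a one-letter input alphabet, `size`, `language` and
`detSize` are those of `Pool/Agent/H630R2/LA/Defs.lean`.  We determine the growth of the cost of
determinizing unary 1-limited automata: it is `2 ^ Θ(n ^ 2)`.
-/

namespace Pool.Agent.Results.MP_0036f5_lc.UnaryCase

open Pool.Agent.H630R2.LA Pool.Agent.H542.UN

/-- The values `detSize L(M)` for the unary 1-limited automata `M` of size at most `n`. -/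
def costs1 (strict : Prop) (n : ℕ) : Set ℕ :=
  {s | ∃ M : LimAut Unit, M.size ≤ n ∧ s = detSize strict (M.language strict)}

/-- The cost function `D₁(n)` of determinizing unary 1-limited automata. -/
noncomputable def D1 (strict : Prop) (n : ℕ) : ℕ := sSup (costs1 strict n)

theorem detSize_le (strict : Prop) (n : ℕ) (M : LimAut Unit) (hM : M.size ≤ n) :
    detSize strict (M.language strict) ≤ 2 ^ (3 * n ^ 2) := by
  obtain ⟨M', h1, _, h2, h3⟩ := upperU M strict
  have h4 : detSize strict (M.language strict) ≤ M'.size := Nat.sInf_le ⟨M', h1, h2, rfl⟩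
  have hW : 1 ≤ Nat.card M.W := by
    have := M.finW
    have : Nonempty M.W := ⟨M.inp ()⟩
    exact Nat.card_pos
  have hq : Nat.card M.Q + 5 ≤ n := by
    have h5 : M.size = Nat.card M.Q + Nat.card Unit + (Nat.card M.W + 2) + 5 * M.numTrans + 1 +
      M.F.ncard := rfl
    have h6 : Nat.card Unit = 1 := by simp
    rw [h6] at h5
    omega
  refine h4.trans (h3.trans (Nat.pow_le_pow_right (by norm_num) ?_))
  nlinarith

theorem bdd (strict : Prop) (n : ℕ) : BddAbove (costs1 strict n) := by
  refine ⟨2 ^ (3 * n ^ 2), ?_⟩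
  rintro s ⟨M, hM, rfl⟩
  exact detSize_le strict n M hM

theorem le_detSize (strict : Prop) (m : ℕ) (hm : 2 ≤ m) :
    2 ^ (m * m - 1) ≤ detSize strict ((witU m).language strict) ^ 2 := by
  obtain ⟨M', h1, _, h2, -⟩ := upperU (witU m) strict
  have hne : {s | ∃ M : LimAut Unit, M.Deterministic ∧
      M.language strict = (witU m).language strict ∧ M.size = s}.Nonempty := ⟨_, M', h1, h2, rfl⟩
  obtain ⟨M, h3, h4, h5⟩ := Nat.sInf_mem hne
  have h6 : M.size = detSize strict ((witU m).language strict) := h5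
  rw [← h6]
  exact lowerS hm strict M h3 h4

theorem D1_lower (strict : Prop) (n : ℕ) (hn : 12000000 ≤ n) :
    2 ^ (n ^ 2) ≤ D1 strict n ^ (2 * 10 ^ 14) := by
  obtain ⟨m, hm, h1, h2⟩ : ∃ m, 2 ≤ m ∧ 4000000 * (m + 1) ≤ n ∧ n ≤ 4000000 * (m + 2) :=
    ⟨n / 4000000 - 1, by omega, by omega, by omega⟩
  have hmem : detSize strict ((witU m).language strict) ∈ costs1 strict n :=
    ⟨witU m, (size_witU m).trans h1, rfl⟩
  have h3 : detSize strict ((witU m).language strict) ≤ D1 strict n :=
    le_csSup (bdd strict n) hmem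
  have h4 := le_detSize strict m hm
  have h5 : n ^ 2 ≤ (m * m - 1) * 10 ^ 14 := by
    obtain ⟨k, rfl⟩ : ∃ k, m = k + 2 := ⟨m - 2, by omega⟩
    have h6 : n ^ 2 ≤ (4000000 * (k + 2 + 2)) ^ 2 := Nat.pow_le_pow_left h2 2
    have h7 : (k + 2) * (k + 2) - 1 = k * k + 4 * k + 3 := by
      have : (k + 2) * (k + 2) = k * k + 4 * k + 3 + 1 := by ring
      omega
    rw [h7]
    nlinarith
  calc 2 ^ (n ^ 2) ≤ 2 ^ ((m * m - 1) * 10 ^ 14) := Nat.pow_le_pow_right (by omega) h5
    _ = (2 ^ (m * m - 1)) ^ (10 ^ 14) := by rw [pow_mul]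
    _ ≤ (detSize strict ((witU m).language strict) ^ 2) ^ (10 ^ 14) := Nat.pow_le_pow_left h4 _
    _ ≤ (D1 strict n ^ 2) ^ (10 ^ 14) := Nat.pow_le_pow_left (Nat.pow_le_pow_left h3 2) _
    _ = D1 strict n ^ (2 * 10 ^ 14) := by rw [← pow_mul]

/-- **The cost of determinizing unary 1-limited automata is `2 ^ Θ(n ^ 2)`.**

Let `D₁(n)` be the maximum, over all 1-limited automata `M` of size at most `n` over a one-letter
input alphabet, of the minimum size of an equivalent deterministic 1-limited automaton.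

(1) `D₁(n) ≤ 2 ^ (3 * n ^ 2)` for every `n`, and `2 ^ (n ^ 2) ≤ D₁(n) ^ (2 * 10 ^ 14)`, that is
`2 ^ (n ^ 2 / (2 * 10 ^ 14)) ≤ D₁(n)`, for every `n ≥ 12000000`; for these `n` the maximum `D₁(n)`
is attained.

(2) Every unary 1-limited automaton with `q` states has an equivalent deterministic one of size at
most `2 ^ (3 * q ^ 2 + 3 * q + 10)` which never rewrites (its work alphabet consists of the input
letter), that is, an equivalent two-way deterministic finite automaton.

(3) For every `m ≥ 2` there is a unary 1-limited automaton of size at most `4000000 * (m + 1)`, such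
that every equivalent deterministic 1-limited automaton has a number `q` of states with
`2 ^ (m * m - 1) ≤ q * q + q`.  It accepts a word of length `m * m * T` if and only if `T > 0` and
some number between `1` and `2 ^ (m * m)` does not divide `T`.

All this holds for both readings `strict` of the rule that visited cells are frozen. -/
theorem result (strict : Prop) :
    ((∀ n : ℕ, D1 strict n ≤ 2 ^ (3 * n ^ 2)) ∧
      (∀ n : ℕ, 12000000 ≤ n → 2 ^ (n ^ 2) ≤ D1 strict n ^ (2 * 10 ^ 14)) ∧
      (∀ n : ℕ, 12000000 ≤ n → IsGreatest (costs1 strict n) (D1 strict n))) ∧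
    (∀ M : LimAut Unit, ∃ M' : LimAut Unit, M'.Deterministic ∧ Nat.card M'.W = 1 ∧
      M'.language strict = M.language strict ∧
      M'.size ≤ 2 ^ (3 * Nat.card M.Q ^ 2 + 3 * Nat.card M.Q + 10)) ∧
    (∀ m : ℕ, 2 ≤ m → ∃ M : LimAut Unit, M.size ≤ 4000000 * (m + 1) ∧
      (∀ M' : LimAut Unit, M'.Deterministic → M'.language strict = M.language strict →
        2 ^ (m * m - 1) ≤ Nat.card M'.Q * Nat.card M'.Q + Nat.card M'.Q) ∧
      ∀ T : ℕ, List.replicate (m * m * T) () ∈ M.language strict ↔
        0 < T ∧ ∃ k, 1 ≤ k ∧ k ≤ 2 ^ (m * m) ∧ ¬ k ∣ T) := by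
  refine ⟨⟨?_, D1_lower strict, ?_⟩, fun M => upperU M strict, ?_⟩
  · intro n
    rcases Set.eq_empty_or_nonempty (costs1 strict n) with h | h
    · unfold D1
      rw [h]
      simp
    · refine csSup_le h ?_
      rintro s ⟨M, hM, rfl⟩
      exact detSize_le strict n M hM
  · intro n hn
    have hne : (costs1 strict n).Nonempty := by
      refine ⟨_, witU 2, (size_witU 2).trans ?_, rfl⟩
      omega
    exact ⟨Nat.sSup_mem hne (bdd strict n), fun s hs => le_csSup (bdd strict n) hs⟩
  · intro m hm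
    refine ⟨witU m, size_witU m, fun M' h1 h2 => lowerQ hm strict M' h1 h2, fun T => ?_⟩
    rw [mem_iff hm]
    constructor
    · rintro ⟨h1, r, h2, h3⟩
      exact ⟨h1, r + 1, Nat.succ_pos r, h2, h3⟩
    · rintro ⟨h1, k, h2, h3, h4⟩
      refine ⟨h1, k - 1, by omega, ?_⟩
      rw [Nat.sub_add_cancel h2]
      exact h4

end Pool.Agent.Results.MP_0036f5_lc.UnaryCase
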